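import Pool.Agent.H27.HB.TA

/-!
Row ACV of the board hbe_modules: change of variables for the action.
-/

set_option autoImplicit false

namespace Pool.Agent.H1.HB
open MeasureTheory Set Filter Topology Pool.Agent.H80.HS Pool.Agent.H93.HQ Pool.Agent.H27.HB
open scoped ContDiff ENNReal

section
variable {n : ℕ}

theorem dil_mul' (r : ℝ) (a b : H n) : dil r (mul a b) = mul (dil r a) (dil r b) := by
  unfold dil mul
  refine Prod.ext ?_ (Prod.ext ?_ ?_)
  · simp only [smul_add]
  · simp only [smul_add]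
  · simp only [inner_smul_left, inner_smul_right, conj_trivial]
    ring

theorem mul_neg_mul (a z : H n) : mul (-a) (mul a z) = z := by
  unfold mul
  refine Prod.ext ?_ (Prod.ext ?_ ?_)
  · simp
  · simp
  · simp only [Prod.fst_neg, Prod.snd_neg, inner_neg_left, inner_add_right]
    rw [real_inner_comm a.1 a.2.1]
    ring

theorem mul_mul_neg (a z : H n) : mul a (mul (-a) z) = z := by
  have := mul_neg_mul (-a) z
  rwa [neg_neg] at this

theorem dil_dil (r s : ℝ) (z : H n) : dil r (dil s z) = dil (r * s) z := by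
  unfold dil
  refine Prod.ext ?_ (Prod.ext ?_ ?_)
  · simp only [smul_smul]
  · simp only [smul_smul]
  · simp only
    ring

theorem dil_one (z : H n) : dil 1 z = z := by
  unfold dil
  refine Prod.ext ?_ (Prod.ext ?_ ?_) <;> simp

theorem dil_inv {r : ℝ} (hr : r ≠ 0) (z : H n) : dil r (dil r⁻¹ z) = z ∧ dil r⁻¹ (dil r z) = z := by
  rw [dil_dil, dil_dil, mul_inv_cancel₀ hr, inv_mul_cancel₀ hr]
  exact ⟨dil_one z, dil_one z⟩

theorem cont_dil (r : ℝ) : Continuous (dil r : H n → H n) := by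
  unfold dil
  fun_prop

theorem cont_mul (a : H n) : Continuous (mul a : H n → H n) := by
  unfold mul
  fun_prop

/-- the action as a measurable equivalence -/
noncomputable def eqv (a : H n) (r : ℝ) (hr : r ≠ 0) : H n ≃ᵐ H n where
  toFun z := dil r (mul a z)
  invFun y := mul (-a) (dil r⁻¹ y)
  left_inv z := by
    simp only
    rw [(dil_inv hr _).2, mul_neg_mul]
  right_inv y := by
    simp only
    rw [mul_mul_neg, (dil_inv hr _).1]
  measurable_toFun := ((cont_dil r).comp (cont_mul a)).measurable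
  measurable_invFun := ((cont_mul (-a)).comp (cont_dil r⁻¹)).measurable

theorem eqv_apply (a : H n) (r : ℝ) (hr : r ≠ 0) (z : H n) : eqv a r hr z = dil r (mul a z) := rfl

theorem vol_eq (hDIL : U_DIL) (hTR : U_TR) (a : H n) (r : ℝ) (hr : 0 < r) :
    (volume : Measure (H n)) =
      ENNReal.ofReal (r ^ (2 * n + 2)) • Measure.map (eqv a r hr.ne') volume := by
  refine Measure.ext fun s hs => ?_
  rw [Measure.smul_apply, Measure.map_apply (eqv a r hr.ne').measurable hs, smul_eq_mul]
  have hm : Measurable (s.indicator (fun _ => (1 : ℝ≥0∞))) := measurable_const.indicator hs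
  have h1 := hDIL n _ r hm hr
  have h2 := (hTR n (fun x => s.indicator (fun _ => (1 : ℝ≥0∞)) (dil r x)) a
    (hm.comp (cont_dil r).measurable)).1
  rw [← h2] at h1
  have h3 : ∫⁻ x, s.indicator (fun _ => (1 : ℝ≥0∞)) (dil r (mul a x)) =
      volume ((eqv a r hr.ne') ⁻¹' s) := by
    rw [← lintegral_indicator_one ((eqv a r hr.ne').measurable hs)]
    rfl
  rw [h3] at h1
  rw [h1, lintegral_indicator hs]
  simp

theorem int_eq (hDIL : U_DIL) (hTR : U_TR) (a : H n) (r : ℝ) (hr : 0 < r) (f : H n → ℝ) :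
    r ^ (2 * n + 2) * ∫ z, f (dil r (mul a z)) = ∫ z, f z := by
  have h1 := vol_eq hDIL hTR a r hr
  have h2 : ∫ z, f z = ∫ z, f z ∂(ENNReal.ofReal (r ^ (2 * n + 2)) •
      Measure.map (eqv a r hr.ne') (volume : Measure (H n))) := by rw [← h1]
  rw [h2, integral_smul_measure, integral_map_equiv, ENNReal.toReal_ofReal (by positivity)]
  rfl

theorem int_int (hDIL : U_DIL) (hTR : U_TR) (a : H n) (r : ℝ) (hr : 0 < r) (f : H n → ℝ)
    (hf : Integrable f) : Integrable (fun z => f (dil r (mul a z))) := by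
  have h1 := vol_eq hDIL hTR a r hr
  have h3 : ENNReal.ofReal (r ^ (2 * n + 2)) ≠ 0 := by
    rw [Ne, ENNReal.ofReal_eq_zero, not_le]
    positivity
  have h2 : Integrable f (ENNReal.ofReal (r ^ (2 * n + 2)) •
      Measure.map (eqv a r hr.ne') (volume : Measure (H n))) := by rw [← h1]; exact hf
  rw [integrable_smul_measure h3 ENNReal.ofReal_ne_top, integrable_map_equiv] at h2
  exact h2

theorem rq {p r : ℝ} (hr : 0 < r) (h1 : 1 < p) (h2 : p < 2 * n + 2) :
    (r ^ ((2 * (n : ℝ) + 2 - p) / p)) ^ ps n p = r ^ (2 * n + 2) := by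
  rw [← Real.rpow_mul hr.le]
  have e : (2 * (n : ℝ) + 2 - p) / p * ps n p = ((2 * n + 2 : ℕ) : ℝ) := by
    unfold ps
    have h3 : 2 * (n : ℝ) + 2 - p ≠ 0 := by linarith
    have h4 : p ≠ 0 := by linarith
    push_cast
    rw [div_mul_div_comm, div_eq_iff (mul_ne_zero h4 h3)]
    ring
  rw [e, Real.rpow_natCast]

theorem abs_act {p r : ℝ} (hr : 0 < r) (h1 : 1 < p) (h2 : p < 2 * n + 2) (a : H n) (u : H n → ℝ)
    (z : H n) : |act p a r u z| ^ ps n p = r ^ (2 * n + 2) * |u (dil r (mul a z))| ^ ps n p := by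
  have h3 : 0 ≤ r ^ ((2 * (n : ℝ) + 2 - p) / p) := Real.rpow_nonneg hr.le _
  unfold act
  rw [abs_mul, abs_of_nonneg h3, Real.mul_rpow h3 (abs_nonneg _), rq hr h1 h2]

end

/-- ACV: change of variables for the action. -/
theorem pf_ACV (hDIL : U_DIL) (hTR : U_TR) : T_ACV := by
  intro n hn p h1 h2 a r hr
  have hI := fun f : H n → ℝ => int_eq hDIL hTR a r hr f
  have hrr : ∀ e : ℝ, r ^ e * r⁻¹ ^ e = 1 := by
    intro e
    rw [← Real.mul_rpow hr.le (inv_nonneg.2 hr.le), mul_inv_cancel₀ hr.ne', Real.one_rpow]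
  refine ⟨hI, fun f hf => int_int hDIL hTR a r hr f hf, fun u => ?_, fun u θ => ?_, fun g => ?_,
    fun u => ?_, fun u => ?_⟩
  · unfold ms
    rw [← hI fun z => |u z| ^ ps n p]
    simp only [abs_act hr h1 h2]
    rw [integral_const_mul]
  · rw [← hI fun z => |u z| ^ ps n p * θ z, ← integral_const_mul]
    refine integral_congr_ae (Eventually.of_forall fun z => ?_)
    simp only [abs_act hr h1 h2]
    ring
  · unfold en
    rw [← hI fun z => ‖g z‖ ^ p, ← integral_const_mul]
    refine integral_congr_ae (Eventually.of_forall fun z => ?_)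
    simp only
    unfold actg
    have h3 : 0 ≤ r ^ ((2 * (n : ℝ) + 2 - p) / p) * r :=
      mul_nonneg (Real.rpow_nonneg hr.le _) hr.le
    have h4 : p ≠ 0 := by linarith
    rw [norm_smul, Real.norm_of_nonneg h3, Real.mul_rpow h3 (norm_nonneg _)]
    congr 1
    rw [Real.mul_rpow (Real.rpow_nonneg hr.le _) hr.le, ← Real.rpow_mul hr.le,
      div_mul_cancel₀ _ h4, ← Real.rpow_add hr, ← Real.rpow_natCast]
    congr 1
    push_cast
    ring
  · funext z
    unfold act
    rw [← dil_mul', mul_neg_mul, (dil_inv hr.ne' z).2, ← mul_assoc, hrr, one_mul]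
  · funext z
    unfold act
    have e1 : dil r⁻¹ (mul (dil r (-a)) z) = mul (-a) (dil r⁻¹ z) := by
      rw [dil_mul', (dil_inv hr.ne' _).2]
    rw [e1, mul_mul_neg, (dil_inv hr.ne' z).1, ← mul_assoc, mul_comm (r⁻¹ ^ _), hrr, one_mul]

end Pool.Agent.H1.HB
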