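import Mathlib

/-!
# The norm of `L^p` as a power of an integral
-/

set_option autoImplicit false

namespace Pool.Agent.H1.HB
open MeasureTheory Filter Topology
open scoped ENNReal

variable {α E : Type} [MeasurableSpace α] {μ : Measure α} [NormedAddCommGroup E] {p : ℝ}

/-- the norm of `L^p` -/
noncomputable def NN (μ : Measure α) (p : ℝ) (h : α → E) : ℝ :=
  (eLpNorm h (ENNReal.ofReal p) μ).toReal

theorem NN_nonneg (h : α → E) : 0 ≤ NN μ p h := ENNReal.toReal_nonneg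

theorem NN_eq (hp : 1 ≤ p) {h : α → E} (hh : MemLp h (ENNReal.ofReal p) μ) :
    NN μ p h = (∫ z, ‖h z‖ ^ p ∂μ) ^ p⁻¹ := by
  have hp0 : 0 < p := by linarith
  have h1 : ENNReal.ofReal p ≠ 0 := by
    rw [Ne, ENNReal.ofReal_eq_zero, not_le]
    exact hp0
  rw [NN, hh.eLpNorm_eq_integral_rpow_norm h1 ENNReal.ofReal_ne_top,
    ENNReal.toReal_ofReal hp0.le, ENNReal.toReal_ofReal]
  exact Real.rpow_nonneg (integral_nonneg fun z => Real.rpow_nonneg (norm_nonneg _) _) _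

theorem NN_pow (hp : 1 ≤ p) {h : α → E} (hh : MemLp h (ENNReal.ofReal p) μ) :
    ∫ z, ‖h z‖ ^ p ∂μ = NN μ p h ^ p := by
  have hp0 : 0 < p := by linarith
  rw [NN_eq hp hh, ← Real.rpow_mul (integral_nonneg fun z => Real.rpow_nonneg (norm_nonneg _) _),
    inv_mul_cancel₀ hp0.ne', Real.rpow_one]

theorem NN_add (hp : 1 ≤ p) {f g : α → E} (hf : MemLp f (ENNReal.ofReal p) μ)
    (hg : MemLp g (ENNReal.ofReal p) μ) : NN μ p (f + g) ≤ NN μ p f + NN μ p g := by
  have h1 : (1 : ℝ≥0∞) ≤ ENNReal.ofReal p := by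
    rw [← ENNReal.ofReal_one]
    exact ENNReal.ofReal_le_ofReal hp
  rw [NN, NN, NN, ← ENNReal.toReal_add hf.2.ne hg.2.ne]
  exact ENNReal.toReal_mono (ENNReal.add_lt_top.2 ⟨hf.2, hg.2⟩).ne (eLpNorm_add_le hf.1 hg.1 h1)

theorem NN_tri (hp : 1 ≤ p) {f g h : α → E} (hf : MemLp f (ENNReal.ofReal p) μ)
    (hg : MemLp g (ENNReal.ofReal p) μ) (hh : MemLp h (ENNReal.ofReal p) μ) :
    NN μ p (fun z => f z - h z) ≤
      NN μ p (fun z => f z - g z) + NN μ p (fun z => g z - h z) := by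
  have h1 := NN_add hp (hf.sub hg) (hg.sub hh)
  have h2 : f - g + (g - h) = fun z => f z - h z := by
    funext z
    simp
  rw [h2] at h1
  exact h1

theorem NN_sub_comm (f g : α → E) : NN μ p (fun z => f z - g z) = NN μ p (fun z => g z - f z) := by
  unfold NN
  rw [← eLpNorm_neg]
  congr 2
  funext z
  simp

theorem NN_tendsto (hp : 1 ≤ p) {h : ℕ → α → E} (hh : ∀ k, MemLp (h k) (ENNReal.ofReal p) μ) :
    Tendsto (fun k => ∫ z, ‖h k z‖ ^ p ∂μ) atTop (𝓝 0) ↔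
      Tendsto (fun k => NN μ p (h k)) atTop (𝓝 0) := by
  have hp0 : 0 < p := by linarith
  constructor
  · intro h1
    have h2 : (fun k => NN μ p (h k)) = fun k => (∫ z, ‖h k z‖ ^ p ∂μ) ^ p⁻¹ :=
      funext fun k => NN_eq hp (hh k)
    rw [h2]
    have h3 := h1.rpow_const (p := p⁻¹) (Or.inr (inv_nonneg.2 hp0.le))
    rwa [Real.zero_rpow (inv_ne_zero hp0.ne')] at h3
  · intro h1
    have h2 : (fun k => ∫ z, ‖h k z‖ ^ p ∂μ) = fun k => NN μ p (h k) ^ p :=
      funext fun k => NN_pow hp (hh k)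
    rw [h2]
    have h3 := h1.rpow_const (p := p) (Or.inr hp0.le)
    rwa [Real.zero_rpow hp0.ne'] at h3

/-- convergence of the norms -/
theorem int_tendsto (hp : 1 ≤ p) {f : ℕ → α → E} {g : α → E}
    (hf : ∀ k, MemLp (f k) (ENNReal.ofReal p) μ) (hg : MemLp g (ENNReal.ofReal p) μ)
    (h : Tendsto (fun k => ∫ z, ‖f k z - g z‖ ^ p ∂μ) atTop (𝓝 0)) :
    Tendsto (fun k => ∫ z, ‖f k z‖ ^ p ∂μ) atTop (𝓝 (∫ z, ‖g z‖ ^ p ∂μ)) := by
  have hp0 : 0 < p := by linarith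
  have h1 : Tendsto (fun k => NN μ p (fun z => f k z - g z)) atTop (𝓝 0) :=
    (NN_tendsto hp fun k => (hf k).sub hg).1 h
  have h0 : MemLp (fun _ : α => (0 : E)) (ENNReal.ofReal p) μ := MemLp.zero'
  have h2 : Tendsto (fun k => NN μ p (f k)) atTop (𝓝 (NN μ p g)) := by
    refine tendsto_iff_dist_tendsto_zero.2 (squeeze_zero (fun k => dist_nonneg) (fun k => ?_) h1)
    rw [Real.dist_eq, abs_sub_le_iff]
    have e0 : ∀ h : α → E, NN μ p (fun z => h z - 0) = NN μ p h := fun h => by simp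
    constructor
    · have := NN_tri hp (hf k) hg h0
      rw [e0, e0] at this
      linarith
    · have := NN_tri hp hg (hf k) h0
      rw [e0, e0, NN_sub_comm g (f k)] at this
      linarith
  have h3 : (fun k => ∫ z, ‖f k z‖ ^ p ∂μ) = fun k => NN μ p (f k) ^ p :=
    funext fun k => NN_pow hp (hf k)
  rw [h3, NN_pow hp hg]
  exact h2.rpow_const (Or.inr hp0.le)

end Pool.Agent.H1.HB
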