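import Pool.Agent.H27.HB.TA
import Pool.Agent.H1.HB.Lp
import Pool.Agent.H80.HS.Basic

/-!
Row CLC of the board hbe_modules: the class `Cl` is closed.
-/

set_option autoImplicit false

namespace Pool.Agent.H1.HB
open MeasureTheory Set Filter Topology Pool.Agent.H80.HS Pool.Agent.H93.HQ Pool.Agent.H27.HB
open scoped ContDiff ENNReal

theorem hg_cont {n : ℕ} {u : H n → ℝ} (hu : ContDiff ℝ 1 u) : Continuous (hg u) := by
  unfold hg
  refine (PiLp.continuous_toLp 2 _).comp (continuous_pi fun i => ?_)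
  rcases i with j | j
  · exact continuous_X hu j
  · exact continuous_Y hu j

theorem hg_supp {n : ℕ} {u : H n → ℝ} (hu : HasCompactSupport u) : HasCompactSupport (hg u) := by
  refine HasCompactSupport.intro hu fun z hz => ?_
  unfold hg
  ext i
  rcases i with j | j
  · exact X_eq_zero hz j
  · exact Y_eq_zero hz j

theorem tst_memLp {n : ℕ} {φ : H n → ℝ} (h : Tst φ) (q : ℝ≥0∞) : MemLp φ q :=
  h.1.continuous.memLp_of_hasCompactSupport h.2

theorem tst_memLp_hg {n : ℕ} {φ : H n → ℝ} (h : Tst φ) (q : ℝ≥0∞) : MemLp (hg φ) q :=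
  (hg_cont (h.1.of_le (by exact_mod_cast le_top))).memLp_of_hasCompactSupport (hg_supp h.2)

/-- the exponent of the Sobolev inequality -/
theorem ps_ge {n : ℕ} {p : ℝ} (h1 : 1 < p) (h2 : p < 2 * n + 2) : 1 ≤ ps n p := by
  unfold ps
  rw [le_div_iff₀ (by linarith)]
  have h3 : (0 : ℝ) < 2 * n + 2 := by positivity
  nlinarith

/-- CLC: changing on null sets, and closedness. -/
theorem pf_CLC : T_CLC := by
  intro n hn p h1 h2
  have hp : 1 ≤ p := h1.le
  have hq : 1 ≤ ps n p := ps_ge h1 h2
  constructor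
  · rintro u v g h ⟨a1, a2, φ, a3, a4, a5⟩ huv hgh
    refine ⟨(memLp_congr_ae huv).1 a1, (memLp_congr_ae hgh).1 a2, φ, a3, ?_, ?_⟩
    · refine a4.congr fun k => ?_
      unfold ms
      refine integral_congr_ae ?_
      filter_upwards [huv] with z hz
      rw [hz]
    · refine a5.congr fun k => ?_
      unfold en
      refine integral_congr_ae ?_
      filter_upwards [hgh] with z hz
      rw [hz]
  · intro u g v h hcl hu hg' hv hh
    have e1 : ∀ w : H n → ℝ, ms (ps n p) w = ∫ z, ‖w z‖ ^ (ps n p) := fun w => rfl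
    have e2 : ∀ w : H n → G n, en p w = ∫ z, ‖w z‖ ^ p := fun w => rfl
    simp only [e1] at hv
    simp only [e2] at hh
    have b1 := (NN_tendsto hq fun k => (hcl k).1.sub hu).1 hv
    have b2 := (NN_tendsto hp fun k => (hcl k).2.1.sub hg').1 hh
    have key : ∀ m : ℕ, ∃ φ : H n → ℝ, Tst φ ∧
        NN volume (ps n p) (fun z => φ z - u z) ≤ 2 * (1 / ((m : ℝ) + 1)) ∧
        NN volume p (fun z => hg φ z - g z) ≤ 2 * (1 / ((m : ℝ) + 1)) := by
      intro m
      have hm : (0 : ℝ) < 1 / ((m : ℝ) + 1) := by positivity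
      obtain ⟨k, hk1, hk2⟩ := ((b1.eventually (eventually_lt_nhds hm)).and
        (b2.eventually (eventually_lt_nhds hm))).exists
      obtain ⟨c1, c2, φ, c3, c4, c5⟩ := hcl k
      simp only [e1] at c4
      simp only [e2] at c5
      have d1 := (NN_tendsto hq fun j => (tst_memLp (c3 j) _).sub c1).1 c4
      have d2 := (NN_tendsto hp fun j => (tst_memLp_hg (c3 j) _).sub c2).1 c5
      obtain ⟨j, hj1, hj2⟩ := ((d1.eventually (eventually_lt_nhds hm)).and
        (d2.eventually (eventually_lt_nhds hm))).exists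
      refine ⟨φ j, c3 j, ?_, ?_⟩
      · have := NN_tri hq (tst_memLp (c3 j) _) c1 hu
        have hk1' : NN volume (ps n p) (fun z => v k z - u z) < 1 / ((m : ℝ) + 1) := hk1
        have hj1' : NN volume (ps n p) (fun z => φ j z - v k z) < 1 / ((m : ℝ) + 1) := hj1
        linarith
      · have := NN_tri hp (tst_memLp_hg (c3 j) _) c2 hg'
        have hk2' : NN volume p (fun z => h k z - g z) < 1 / ((m : ℝ) + 1) := hk2
        have hj2' : NN volume p (fun z => hg (φ j) z - h k z) < 1 / ((m : ℝ) + 1) := hj2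
        linarith
    choose φ f1 f2 f3 using key
    have hlim : Tendsto (fun m : ℕ => 2 * (1 / ((m : ℝ) + 1))) atTop (𝓝 0) := by
      have := (tendsto_one_div_add_atTop_nhds_zero_nat (𝕜 := ℝ)).const_mul 2
      rwa [mul_zero] at this
    refine ⟨hu, hg', φ, f1, ?_, ?_⟩
    · simp only [e1]
      exact (NN_tendsto hq fun m => (tst_memLp (f1 m) _).sub hu).2
        (squeeze_zero (fun m => NN_nonneg _) f2 hlim)
    · simp only [e2]
      exact (NN_tendsto hp fun m => (tst_memLp_hg (f1 m) _).sub hg').2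
        (squeeze_zero (fun m => NN_nonneg _) f3 hlim)

end Pool.Agent.H1.HB
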