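import Pool.Agent.H27.HB.TA
import Pool.Agent.H1.HB.Lp

/-!
Row LPN of the board hbe_modules: convergence of `p`-th power integrals.
-/

set_option autoImplicit false

namespace Pool.Agent.H1.HB
open MeasureTheory Set Filter Topology Pool.Agent.H80.HS Pool.Agent.H93.HQ Pool.Agent.H27.HB
open scoped ContDiff ENNReal

/-- LPN: convergence of `p`-th power integrals. -/
theorem pf_LPN : T_LPN := fun _ _ _ _ _ _ hp hf hg h => int_tendsto hp hf hg h

end Pool.Agent.H1.HB
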